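import Pool.Agent.Y503.RB.GapAll

/-!
# A gap theorem for the total horospherical curvature of slice discs

Among the slice discs with given boundary values there is one on which the distance from the origin
is a Morse function without local maxima (a ribbon disc) if and only if there is one of total
horospherical curvature less than `2 π²`, if and only if there is one of total horospherical
curvature zero.
-/

set_option autoImplicit false

namespace Pool.Agent.Results.MP_752436_gt.CurvatureGap

open Pool.Agent.Y503.RB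
open MeasureTheory Metric

theorem result (γ : ℂ → E4) :
    List.TFAE [
      ∃ φ : ℂ → E4, SliceDisc φ ∧ (∀ z ∈ sphere (0 : ℂ) 1, φ z = γ z) ∧
        (∀ z ∈ closedBall (0 : ℂ) 1, φ z ≠ 0) ∧ MorseDisc φ 0,
      ∃ φ : ℂ → E4, SliceDisc φ ∧ (∀ z ∈ sphere (0 : ℂ) 1, φ z = γ z) ∧
        ∫⁻ z in ball (0 : ℂ) 1, curvAt φ z < ENNReal.ofReal (2 * Real.pi ^ 2),
      ∃ φ : ℂ → E4, SliceDisc φ ∧ (∀ z ∈ sphere (0 : ℂ) 1, φ z = γ z) ∧
        ∫⁻ z in ball (0 : ℂ) 1, curvAt φ z = 0] :=
  gapDisc γ

end Pool.Agent.Results.MP_752436_gt.CurvatureGap
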