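import Pool.Agent.Y503.RB.All

/-!
# A Fáry–Milnor (Chern–Lashof) theorem for slice discs

The total horospherical curvature of a slice disc in the unit ball of four-space is the integral,
over the disc and over the circle of unit normal vectors `n`, of the density
`rad (1 - rad)⁻³ det (rad • II_n - I) / √det I`, taken only where the form `rad • II_n - I` is
positive definite, that is, where the disc curves more strongly towards `n` than the horosphere with
normal `n` in all tangential directions (`rad` is the Euclidean radius of this horosphere; in terms
of the hyperbolic metric of the ball: both principal curvatures in the direction `n` are greater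
than 1).

If it is less than `2 π² (m + 1)` then a diffeomorphism of the ball minus a boundary point, which is
the identity on the sphere, turns the disc into a slice disc with the same boundary on which the
distance from the origin is a Morse function with at most `m` local maxima in the interior. For
`m = 0` this is the standard description of ribbon discs.
-/

set_option autoImplicit false

namespace Pool.Agent.Results.MP_752436_gt.HorosphericalCurvature

open Pool.Agent.Y503.RB
open MeasureTheory Metric

theorem result (φ : ℂ → E4) (h : SliceDisc φ) (m : ℕ)
    (hT : ∫⁻ z in ball (0 : ℂ) 1, curvAt φ z < ENNReal.ofReal (2 * Real.pi ^ 2 * (m + 1))) :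
    ∃ ξ : E4, ‖ξ‖ = 1 ∧ (∀ z ∈ closedBall (0 : ℂ) 1, φ z ≠ ξ) ∧
      SliceDisc (fun w => push ξ (φ w)) ∧
      (∀ z ∈ sphere (0 : ℂ) 1, push ξ (φ z) = φ z) ∧
      MorseDisc (fun w => push ξ (φ w)) m :=
  disc φ h m hT

end Pool.Agent.Results.MP_752436_gt.HorosphericalCurvature
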