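import Pool.Agent.Y874.TP4.Final

/-!
Slice discs without monogons and bigons near the boundary. In the projection of a surface, the triple
points are the Reidemeister moves of type III in its movie. The movies here go from the link into the
4-ball, so that births of components are the local maxima of the distance from the centre of the
4-ball. Every crossing belongs to a double curve of the projection, named by its colour; the preimage
of the double curves in the surface consists of the curves named by `lc`.
-/

namespace Pool.Agent.Results.MP_752436_gt.NoBigons

open Pool.Agent.Y468.SR Pool.Agent.Y874.TP Pool.Agent.Y874.TP4

/-- Let the classical link with Gauss code `L` bound disjoint discs in the 4-ball by a movie, and let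
`D` be the link in this movie before the first birth of a component. Let `A` be a set of double
curves of the projection of the discs bounded by `D` (those with colours outside `Z`) which contains
all double curves meeting `D`. Suppose that through each triple point there pass none, one or three
double curves (branches) of `A`, and that, counting only the triple points with three of them, no
curve of the preimage of `A` in the discs crosses itself, and any two of these curves cross at most
once. There is no condition on the number of triple points with none or one branch in `A`. Then `L`
bounds disjoint ribbon discs, i.e. discs given by a movie without births. -/
theorem result (L : List (List Pass)) (Z : ℕ → Prop) (D : Code) (T : List (Sym2 (ℕ × Bool)))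
    (h₁ : Movie true false L.zipIdx D) (h₂ : SMovie false Z D T)
    (hZ : ∀ p ∈ passes D, ¬Z (colour p.crossing)) : Movie true false L.zipIdx [] := by
  have hn : (L.zipIdx.map Prod.snd).Nodup := by
    rw [List.zipIdx_map_snd]
    exact List.nodup_range'
  exact h₁.trans (Pool.Agent.Y874.TP2.T4.movie_of_smovie h₂ hZ (nodup_movie h₁ hn))

end Pool.Agent.Results.MP_752436_gt.NoBigons
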