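import Pool.Agent.Y468.SR.Labels

/-!
Slice discs with few triple points. In the projection of a surface, the triple points are the
Reidemeister moves of type III in its movie. The movies here go from the link into the 4-ball, so
that births of components are the local maxima of the distance from the centre of the 4-ball.
-/

namespace Pool.Agent.Results.MP_752436_gt.NoTriplePoints

open Pool.Agent.Y468.SR

/-- Let the classical link with Gauss code `L` bound disjoint discs in the 4-ball by a movie in which
no Reidemeister move of type III occurs after the first birth of a component. Then `L` bounds
disjoint ribbon discs, i.e. discs given by a movie without births. -/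
theorem result (L : List (List Pass)) (hL : Classical L.zipIdx) (D : Code)
    (h₁ : Movie true false L.zipIdx D) (h₂ : Movie false true D []) :
    Movie true false L.zipIdx [] := by
  have hn : (L.zipIdx.map Prod.snd).Nodup := by
    rw [List.zipIdx_map_snd]
    exact List.nodup_range'
  exact h₁.trans (movie_mono (ribbon_of_movie h₂ (classical_of_movie h₁ hL) (nodup_movie h₁ hn)))

end Pool.Agent.Results.MP_752436_gt.NoTriplePoints
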